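import Pool.Agent.helper31.RLS.Spec

set_option autoImplicit false

namespace Pool.Agent.RLS

open Finset

theorem LA_abs (l : List ℕ) : ∀ (b : Bool) (L : ℝ), |lamL b L l| ≤ 1 := by
  induction l with
  | nil => intro b L; cases b <;> simp [lamL]
  | cons p l ih =>
    intro b L
    cases b
    · simp only [lamL, abs_neg]
      exact ih true _
    · simp only [lamL]
      split_ifs
      · rw [abs_neg]; exact ih false _
      · simp

theorem LA_sort (K : Finset ℕ) (p : ℕ) (h : ∀ q ∈ K, q < p) :
    (insert p K).sort (· ≥ ·) = p :: K.sort (· ≥ ·) := by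
  apply Finset.sort_insert
  · intro b hb
    exact (h b hb).le
  · intro hp
    exact lt_irrefl _ (h p hp)

theorem LA : LA_stmt := by
  refine ⟨?_, ?_, ?_, ?_⟩
  · intro b L
    unfold lam
    rw [Finset.sort_empty]
    cases b <;> rfl
  · intro L K p h
    unfold lam
    rw [LA_sort K p h]
    rfl
  · intro L K p h
    unfold lam
    rw [LA_sort K p h]
    rfl
  · intro b L K
    exact LA_abs _ b L

end Pool.Agent.RLS
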